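import Pool.Agent.Helper49.Qc.HLOW

set_option autoImplicit false

namespace Pool.Agent.Helper10.Qc

open Pool.Agent.Helper19.Qh Pool.Agent.Helper19.Qc

theorem fg_norm_add (X Y : Q) (t : ℝ) :
    ‖X + t • star Y‖ ^ 2 = ‖X‖ ^ 2 + 2 * t * (X * Y).re + t ^ 2 * ‖Y‖ ^ 2 := by
  simp only [q_norm_sq]
  simp
  ring

theorem fg_iso (i : Fin 7) (b a : Q) (h : 2 * (a * star (rho i)).re + ‖b‖ ^ 2 = 0) :
    herm ((a, e1 b, rho i) : V 1) ((a, e1 b, rho i) : V 1) = 0 := by
  have h1 := herm_self_re ((a, e1 b, rho i) : V 1)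
  have h2 := herm_star ((a, e1 b, rho i) : V 1) ((a, e1 b, rho i) : V 1)
  have h3 : (herm ((a, e1 b, rho i) : V 1) ((a, e1 b, rho i) : V 1)).re = 0 := by
    rw [h1, e1_norm]
    exact h
  generalize herm ((a, e1 b, rho i) : V 1) ((a, e1 b, rho i) : V 1) = X at *
  have h4 := congrArg (fun q : Q => q.imI) h2
  have h5 := congrArg (fun q : Q => q.imJ) h2
  have h6 := congrArg (fun q : Q => q.imK) h2
  simp at h4 h5 h6
  refine QuaternionAlgebra.ext h3 ?_ ?_ ?_
  · change X.imI = 0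
    linarith
  · change X.imJ = 0
    linarith
  · change X.imK = 0
    linarith

theorem st_FG (hl : ST_HLOW) : ST_FG := by
  intro p i b a h
  have h1 := hl p ((a, e1 b, rho i) : V 1) (fg_iso i b a h)
  have h2 : (((a, e1 b, rho i) : V 1).2.2) = rho i := rfl
  have h3 : (((a, e1 b, rho i) : V 1).2.1 0) = b := rfl
  rw [h2, h3, hlow_rho] at h1
  have h4 : rho i * p.2 0 - b = rho i * (p.2 0 - (rho i)⁻¹ * b) := by
    rw [mul_sub, ← mul_assoc, mul_inv_cancel₀ (hlow_rho_ne i), one_mul]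
  rw [h4, norm_mul, mul_pow, hlow_rho] at h1
  rw [fg_norm_add, hlow_rho]
  generalize herm (vec p) ((a, e1 b, rho i) : V 1) = X at *
  generalize ‖p.2 0 - (rho i)⁻¹ * b‖ ^ 2 = r at *
  have h5 : (X * rho i).re = -(rN i : ℝ) * ((hgt p + r) / 2) := by linarith
  rw [h5]
  ring

end Pool.Agent.Helper10.Qc
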