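import Pool.Agent.Helper92.Qc.FIBL

set_option autoImplicit false

namespace Pool.Agent.Helper10.Qc

open Pool.Agent.Helper19.Qh Pool.Agent.Helper19.Qc

theorem fib3_aux (h1 : ST_FG) (h2 : ST_C1) (p : Pt 1) (hp : p ∈ SD 1) (hh1 : 1 ≤ hgt p) (b : Q)
    (i : Fin 7) (hi : rN i = 3) :
    ∑' a : FibA i b, F5 (uval (((a : Q), e1 b, rho i) : V 1) p) ≤
      ENNReal.ofReal (Psi 3 (Bv 3 (hgt p) (p.2 0) ((rho i)⁻¹ * b)) / hgt p ^ 2) := by
  have hh : 0 < hgt p := hp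
  have hterm : ∀ a : FibA i b, F5 (uval (((a : Q), e1 b, rho i) : V 1) p) =
      ENNReal.ofReal ((max (Bv 3 (hgt p) (p.2 0) ((rho i)⁻¹ * b) - ‖fiblX p i b a‖ ^ 2) 0) ^ 2) *
        ENNReal.ofReal (1 / hgt p ^ 2) := by
    intro a
    have h5 := fibl_term h1 hp i b a a.2.2.1
    rw [hi] at h5
    exact h5
  rw [tsum_congr hterm, ENNReal.tsum_mul_right]
  have hB : Bv 3 (hgt p) (p.2 0) ((rho i)⁻¹ * b) ≤ 1 / 2 := by
    unfold Bv
    have h5 : 0 ≤ ‖p.2 0 - (rho i)⁻¹ * b‖ ^ 2 := by positivity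
    generalize ‖p.2 0 - (rho i)⁻¹ * b‖ ^ 2 = r at *
    push_cast
    nlinarith [mul_nonneg hh.le h5, sq_nonneg r, mul_nonneg (sub_nonneg.2 hh1) (sub_nonneg.2 hh1)]
  have h6 := h2 (FibA i b) (fun a => fiblX p i b a) (Bv 3 (hgt p) (p.2 0) ((rho i)⁻¹ * b)) hB
    (by
      intro a a' h
      rw [fibl_diff]
      have hne : (a : Q) - a' ≠ 0 := fun h5 => h (Subtype.ext (sub_eq_zero.1 h5))
      have h7 := HO_norm (HO.sub_mem a.2.1 a'.2.1) hne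
      nlinarith)
  calc _ ≤ ENNReal.ofReal (Psi 3 (Bv 3 (hgt p) (p.2 0) ((rho i)⁻¹ * b))) *
        ENNReal.ofReal (1 / hgt p ^ 2) := by
        gcongr
        exact h6
    _ = ENNReal.ofReal (Psi 3 (Bv 3 (hgt p) (p.2 0) ((rho i)⁻¹ * b)) / hgt p ^ 2) := by
        rw [← ENNReal.ofReal_mul' (by positivity)]
        congr 1
        ring

theorem st_FIB3 (h1 : ST_FG) (h2 : ST_C1) : ST_FIB3 := by
  intro p hp hh b _ i hi1 hi2
  refine fib3_aux h1 h2 p hp hh b i ?_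
  fin_cases i
  · exact absurd hi1 (by decide)
  · exact absurd hi1 (by decide)
  · rfl
  · rfl
  · rfl
  · rfl
  · exact absurd hi2 (by decide)

end Pool.Agent.Helper10.Qc
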