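import Pool.Agent.Helper10.Qc.Stmts

set_option autoImplicit false

namespace Pool.Agent.Helper10.Qc

open Pool.Agent.Helper19.Qh Pool.Agent.Helper19.Qc

theorem st_HLOW : ST_HLOW := by
  intro p w hw
  have h1 := herm_self_re w
  rw [hw] at h1
  have h2 : (0 : Q).re = 0 := rfl
  rw [h2, norm_E1] at h1
  have h3 : herm (vec p) w = p.1 * star w.2.2 + p.2 0 * star (w.2.1 0) + star w.1 := by
    unfold herm vec
    rw [hin1]
    simp only [one_mul]
  rw [h3]
  unfold hgt
  rw [norm_E1 p.2]
  generalize w.2.2 = c at *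
  generalize w.2.1 0 = b at *
  generalize w.1 = a at *
  generalize p.1 = z at *
  generalize p.2 0 = y at *
  simp only [q_norm_sq] at h1 ⊢
  simp at h1 ⊢
  linear_combination -h1

/-- the points of a fibre -/
theorem hlow_rho (i : Fin 7) : ‖rho i‖ ^ 2 = (rN i : ℝ) := by
  rw [q_norm_sq]
  fin_cases i <;> simp [rho, rN] <;> norm_num

theorem hlow_rho_ne (i : Fin 7) : rho i ≠ 0 := by
  intro h
  have h1 := hlow_rho i
  rw [h] at h1
  fin_cases i <;> simp [rN] at h1

end Pool.Agent.Helper10.Qc
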