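import Pool.Agent.Helper10.Qc.Stmts

set_option autoImplicit false

namespace Pool.Agent.Helper10.Qc

open Pool.Agent.Helper19.Qh Pool.Agent.Helper19.Qc

theorem st_MIN : ST_MIN := by
  intro x hx
  have hx0 : 0 < x := lt_of_lt_of_le (by norm_num) hx
  have hpi := Real.pi_pos
  have hmu : 0 ≤ muP 1 2 1 (1 / x) := by
    unfold muP
    have h7 : (0:ℝ) < 1 / x := by positivity
    refine le_min (by positivity) (by positivity)
  have hpsi : 0 ≤ psi (1 / x) := sq_nonneg _
  unfold phL
  split_ifs with h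
  · obtain ⟨u, hu⟩ : ∃ u, u = 1 / x := ⟨_, rfl⟩
    have hu0 : 0 < u := by rw [hu]; positivity
    have hu1 : u ≤ 23829 / 10000 := by
      rw [hu]
      rw [div_le_iff₀ hx0]
      rw [div_le_iff₀ (by norm_num)] at hx
      linarith
    have hu2 : 4 / 5 ≤ u := by
      rw [hu, le_div_iff₀ hx0]
      linarith
    have e1 : (2285 : ℝ) / 1000 / x = 2285 / 1000 * u := by
      rw [hu]; ring
    have e2 : psi (1 / x) = (5 / 4 - x) ^ 2 := by
      unfold psi
      rw [one_div_one_div, max_eq_left (by linarith)]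
    rw [e1]
    constructor
    · have : 0 ≤ 2285 / 1000 * u - 6793 / 10000 := by nlinarith
      positivity
    · rw [e2, ← mul_assoc]
      refine mul_le_mul_of_nonneg_right ?_ (sq_nonneg _)
      rw [← hu]
      unfold muP
      refine le_min ?_ ?_
      · have : 2285 / 1000 * u - 6793 / 10000 ≤ 2 * u := by nlinarith
        have h2 : 0 ≤ 4 * Real.pi ^ 2 := by positivity
        nlinarith [mul_le_mul_of_nonneg_left this h2]
      · have h3 : (4 * Real.pi ^ 2) * (2285 / 1000 * u - 6793 / 10000) ≤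
            (4 * Real.pi ^ 2) * (2 / Real.pi * u + u ^ 2) := by
          refine mul_le_mul_of_nonneg_left ?_ (by positivity)
          have h4 : (63661 : ℝ) / 100000 ≤ 2 / Real.pi := by
            rw [le_div_iff₀ hpi]
            have := Real.pi_lt_d6
            nlinarith
          nlinarith [mul_le_mul_of_nonneg_right h4 hu0.le, sq_nonneg (u - 164839 / 200000)]
        refine h3.trans (le_of_eq ?_)
        have : Real.pi ≠ 0 := hpi.ne'
        field_simp
        push_cast
        ring
  · exact ⟨le_rfl, by rw [mul_zero]; positivity⟩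

theorem st_HIGH : ST_HIGH := by
  intro h hh
  have hpi := Real.pi_pos
  have h0 : 0 < h := lt_of_lt_of_le (by norm_num) hh
  have h1 : muP 1 2 1 h = 4 * Real.pi ^ 2 * (2 * h) := by
    unfold muP
    rw [min_eq_left]
    · ring
    · have h4 : (63661 : ℝ) / 100000 ≤ 2 / Real.pi := by
        rw [le_div_iff₀ hpi]
        have := Real.pi_lt_d6
        nlinarith
      have h3 : (4 * Real.pi ^ 2) * (2 * h) ≤ (4 * Real.pi ^ 2) * (2 / Real.pi * h + h ^ 2) := by
        refine mul_le_mul_of_nonneg_left ?_ (by positivity)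
        nlinarith [mul_le_mul_of_nonneg_right h4 h0.le]
      have e : (4 * Real.pi ^ 2) * (2 / Real.pi * h + h ^ 2) =
          8 * Real.pi * ((1 : ℕ) : ℝ) * 1 * h + 4 * Real.pi ^ 2 * 1 ^ 2 * h ^ 2 := by
        have : Real.pi ≠ 0 := hpi.ne'
        field_simp
        push_cast
        ring
      rw [← e]
      linarith
  rw [h1, mul_assoc (4 * Real.pi ^ 2) (2 * h)]
  refine mul_le_mul_of_nonneg_left ?_ (by positivity)
  unfold psi
  have h5 : 1 / h ≤ 1 / (2367 / 1000 : ℝ) := one_div_le_one_div_of_le (by norm_num) hh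
  have h6 : (1 : ℝ) / (2367 / 1000) ≤ 42248 / 100000 := by norm_num
  have h7 : 0 < 1 / h := by positivity
  rw [max_eq_left (by linarith)]
  have h8 : 82752 / 100000 ≤ 5 / 4 - 1 / h := by linarith
  have h9 : (82752 / 100000 : ℝ) ^ 2 ≤ (5 / 4 - 1 / h) ^ 2 := pow_le_pow_left₀ (by norm_num) h8 2
  nlinarith [mul_le_mul_of_nonneg_left h9 h0.le]

end Pool.Agent.Helper10.Qc
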